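import Pool.Agent.K3h85.KO.Desc

/-!
# Kimura-finiteness of noncommutative Chow motives does not depend on the base field

`C` and `D` are `ℚ`-linear rigid symmetric monoidal categories, `C` is idempotent complete and the
endomorphisms of the unit object of `D` are the rational numbers. `Φ : C ⥤ D` is a faithful additive
symmetric monoidal functor. An automorphism of `(D, Φ M)` is an additive symmetric monoidal functor
`T : D ⥤ D` with an isomorphism `Φ M ≅ T (Φ M)`; it acts on the endomorphisms of `Φ M`. The
object `M` of `C` has descent if each endomorphism of `Φ M`, whose class modulo negligible
(numerically trivial) endomorphisms is fixed by all automorphisms, is congruent to the image of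
an endomorphism of `M` modulo negligible endomorphisms.

The theorem says that an object `M` of `C` with descent is Kimura-finite if and only if its image
`Φ M` is Kimura-finite. The point is that the even projector of `Φ M` is not unique, but its class
modulo negligible endomorphisms is, so it is fixed by all automorphisms; and that the
lifting of an idempotent of the quotient is possible in `C` although only `Φ M` is known to be
Kimura-finite.

The example is the extension of scalars `NChow(k)_ℚ ⥤ NChow(l)_ℚ`, `U(A) ↦ U(A ⊗ l)`, for an
algebraically closed extension `l` of an arbitrary field `k`. It is faithful. The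
automorphisms of `l` over `k` give automorphisms of the pair `(NChow(l)_ℚ, U(A ⊗ l))`. By
specialization each class in `K_0` of `B ⊗ l`, `B = A^op ⊗ A`, is numerically equivalent to a class
defined over a finite normal extension `k'` of `k`; the sum of the conjugates of a class over `k'`
comes from `K_0(B)_ℚ` by transfer. So each `U(A)` has descent. With an algebraically closed
extension of `l`, for arbitrary extensions `l` of `k`: `U(A)` is Kimura-finite if and only if
`U(A ⊗ l)` is Kimura-finite.
-/

set_option autoImplicit false

open CategoryTheory MonoidalCategory

namespace Pool.Agent.Results.MP_6e5bed_ag.BaseExtension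

open Pool.Agent.K3h85.KO Pool.Agent.Y112.KD

universe v u v' u'

theorem result {C : Type u} [Category.{v} C] [Preadditive C] [Linear ℚ C] [MonoidalCategory C]
    [MonoidalPreadditive C] [MonoidalLinear ℚ C] [SymmetricCategory C] [RightRigidCategory C]
    [IsIdempotentComplete C]
    {D : Type u'} [Category.{v'} D] [Preadditive D] [Linear ℚ D] [MonoidalCategory D]
    [MonoidalPreadditive D] [MonoidalLinear ℚ D] [SymmetricCategory D] [RightRigidCategory D]
    (hU : UnitQ D) (Φ : C ⥤ D) [Φ.Braided] [Φ.Additive] [Φ.Faithful] (M : C)
    (hM : HasDescent Φ M) :
    IsKimuraFinite M ↔ IsKimuraFinite (Φ.obj M) :=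
  kimura_iff_of_descent hU M hM

end Pool.Agent.Results.MP_6e5bed_ag.BaseExtension
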