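import Pool.Agent.K3h85.KO.Main

/-!
# Kimura-finiteness of a Chow motive and of its noncommutative motive are equivalent

`C` and `D` are `ℚ`-linear rigid symmetric monoidal categories, `C` is idempotent complete and the
endomorphisms of the unit object of `D` are the rational numbers. `Φ : C ⥤ D` is an additive
symmetric monoidal functor, `T i` (`i ∈ ℤ`) are the powers of a tensor invertible object of `C`, with
compatible isomorphisms `Φ (T i) ≅ 1`, and for all objects `M`, `N` of `C` the resulting map
`⨁ i, Hom (M, N ⊗ T i) ⟶ Hom (Φ M, Φ N)` is bijective. In other words, `D` contains the orbit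
category `C / - ⊗ T 1` as a full subcategory.

The example is `C = Chow(k)_ℚ`, `T i = ℚ(i)`, `D = NChow(k)_ℚ`, where `Φ` sends the Chow motive of
`X` to `U(perf_dg(X))_ℚ` (Kontsevich, Tabuada).

The theorem says that an object `M` of `C` is Kimura-finite if and only if its image `Φ M` is
Kimura-finite: `K(X)` is equivalent to the Kimura-finiteness of `U(perf_dg(X))_ℚ`.
-/

set_option autoImplicit false

open CategoryTheory MonoidalCategory

namespace Pool.Agent.Results.MP_6e5bed_ag.OrbitDescent

open Pool.Agent.K3h85.KO Pool.Agent.Y112.KD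

universe v u v' u'

theorem result {C : Type u} [Category.{v} C] [Preadditive C] [Linear ℚ C] [MonoidalCategory C]
    [MonoidalPreadditive C] [MonoidalLinear ℚ C] [SymmetricCategory C] [RightRigidCategory C]
    [IsIdempotentComplete C]
    {D : Type u'} [Category.{v'} D] [Preadditive D] [Linear ℚ D] [MonoidalCategory D]
    [MonoidalPreadditive D] [MonoidalLinear ℚ D] [SymmetricCategory D] [RightRigidCategory D]
    (hU : UnitQ D) (Φ : C ⥤ D) [Φ.Braided] [Φ.Additive] (t : Twist Φ) (ht : t.IsOrbit) (M : C) :
    IsKimuraFinite M ↔ IsKimuraFinite (Φ.obj M) :=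
  kimura_iff t ht hU M

end Pool.Agent.Results.MP_6e5bed_ag.OrbitDescent
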