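import Pool.Agent.K3h8.SF.Main

/-!
# Kimura-finiteness descends from Schur functors and tensor products

`C` is a `ℚ`-linear, idempotent complete, rigid symmetric monoidal category whose unit object has
the endomorphisms `ℚ` (`UnitQ`), with a realisation `R` in finite-dimensional super vector spaces
over a field `K` (`SuperRealisation`). For the problem: `C` is the category `NChow(k)_ℚ` of
noncommutative Chow motives, `End(U(k)_ℚ) = K_0(k)_ℚ = ℚ`, and `R` is periodic cyclic homology
(characteristic zero) or topological periodic cyclic homology, after extension of scalars to the
perfect closure of `k` (positive characteristic).

`IsKimuraFinite M`: there is an idempotent `e` of `M` such that some exterior power of `(M, e)` and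
some symmetric power of `(M, 1 - e)` vanish.

`IsSchurSummand M T n`: `T` is the direct summand of `M ⊗ ⋯ ⊗ M` (`n` factors) cut out by an
idempotent of the algebra generated by the exchanges of neighbouring factors, that is, of the image
of the group algebra `ℚ[S_n]`; for example `T = S_λ(M)` for a partition `λ` of `n`.

`Built M T`: the object `T` is obtained from `M` by finitely many steps `T ↦ T'` of the following
kinds: `T'` is a nonzero Schur functor of `T` (`IsSchurSummand T T' n`, `n ≥ 1`); `T'` is a
symmetric or exterior power of `T` of order `n ≥ 1`, possibly zero; `T' = T ⊗ N` is a nonzero tensor
product with an arbitrary object `N`; `T'` is an object with the direct summand `T`.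

Theorem. If some object built from `M` is Kimura-finite then so is `M`.

In particular: if `S_λ(M) ≠ 0` is Kimura-finite for one partition `λ ≠ ∅` then `M` is
Kimura-finite. (If `S_λ(M) = 0` then `M` is Schur-finite, and more cannot be expected in this
generality.)

Steps of the proof for `T = p (M^(⊗ n))`, `p` an idempotent of `ℚ[S_n]`, `T` nonzero and
Kimura-finite.
(1) The realisation of `T` is not zero and `T` satisfies the sign conjecture; it descends to `M`
(starting library, Y112): the parity operator of `M` is the realisation of some `g : M ⟶ M`.
(2) A homologically trivial endomorphism `f` of `M` acts on `T` through the elementary symmetric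
functions of the letters `f_i`, which are nilpotent; so `p f_i^L = 0` for the letters. Contract all
letters but the first one of `g^(⊗ n) p`: one gets `y : M ⟶ M` with `y f^L = 0`, whose realisation is
`α + β par` with rational `α, β`. By a count of the even and odd letters in the realisation of `T`
the numbers `α + β` and `α - β` are not zero after a permutation of the letters. Therefore the
parity operator lifts to an involution `s` up to a homologically trivial idempotent `e`, and the same
contraction with `s` in place of `g` gives `e = 0`: homologically trivial endomorphisms of `M` are
nilpotent, and `M = E ⊕ O` with an even and an odd realisation.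
(3) The algebra generated by the exchanges of the letters of `k` blocks of `n` letters and by the
involutions `s` of the letters is semisimple. Let `q = p (1 ± s^(⊗ n)) / 2`, whose image `T'` is a
summand of `T` of pure parity, so that homologically trivial endomorphisms of `T'^(⊗ k)` are
nilpotent. In this algebra, for `k > dim E`, the product of `q^(⊗ k)` with the antisymmetrizer of the
first letters of the blocks, projected to `E`, generates a right ideal which is generated by a
homologically trivial idempotent of a summand of `T'^(⊗ k)`, so the product is zero. Contract all letters
but the first ones of the blocks: the contraction of `q` is `α + β s` with rational `α, β`, and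
`(α + β)^k` times the antisymmetrizer of `E^(⊗ k)` vanishes; and `α + β ≠ 0` for suitable signs and
permutations. So an exterior power of `E` vanishes; similarly a symmetric power of `O`.
(4) The tensor step is in the starting library (R905).
-/

set_option autoImplicit false

open CategoryTheory Limits MonoidalCategory

universe v u w

namespace Pool.Agent.Results.MP_6e5bed_ag.SchurFunctors

open Pool.Agent.Y112.SR Pool.Agent.Y112.KD Pool.Agent.R905 Pool.Agent.K3h8.SF

/-- If an object `T` built from `M` by nonzero Schur functors, symmetric powers, exterior powers
(all of order at least one), nonzero tensor products and passing to objects with a given summand is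
Kimura-finite then so is `M`. -/
theorem result {C : Type u} [Category.{v} C] [Preadditive C] [Linear ℚ C] [MonoidalCategory C]
    [MonoidalPreadditive C] [MonoidalLinear ℚ C] [SymmetricCategory C] [RightRigidCategory C]
    [IsIdempotentComplete C] {K : Type w} [Field K] (R : SuperRealisation C K) (hU : UnitQ C)
    {M T : C} (hT : Built M T) (h : IsKimuraFinite T) : IsKimuraFinite M :=
  kimura_of_built R hU hT h

end Pool.Agent.Results.MP_6e5bed_ag.SchurFunctors
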