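import Pool.Agent.K3h42.SM.Main

/-!
# Kimura-finiteness and decompositions of the identity into morphisms with vanishing powers

`C` is a `ℚ`-linear rigid symmetric monoidal category whose unit object has the endomorphisms `ℚ`
(`UnitQ`). For the problem: `C` is the category `NChow(k)_ℚ` of noncommutative Chow motives,
`End(U(k)_ℚ) = K_0(k)_ℚ = ℚ`, and the endomorphisms of `U(A)_ℚ` are the elements of
`K_0(A^op ⊗ A)_ℚ`; the identity is the class of the diagonal bimodule.

`IsKimuraFinite M`: there is an idempotent `e` of `M` such that some exterior power of `(M, e)` and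
some symmetric power of `(M, 1 - e)` vanish.

`PowerZero η f n` (for a morphism `f : N ⟶ N'`): the `n`-th exterior power (for `η = -1`) or the
`n`-th symmetric power (for `η = 1`) of `f` is zero, that is, the morphism `f ⊗ ⋯ ⊗ f` from
`N ⊗ ⋯ ⊗ N` to `N' ⊗ ⋯ ⊗ N'` becomes zero after composition with all morphisms that are multiplied
by `η` by the exchanges of two neighbouring factors. If `Λ^(r + 1) f = 0` let us say that `f` has
even rank at most `r`; if `Sym^(r + 1) f = 0`, that `f` has odd rank at most `r`.

`IsSumOf η x r`: the endomorphism `x` of `M` is a finite sum of compositions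
`M ⟶ N i ⟶ N' i ⟶ M`, the objects `N i`, `N' i` are arbitrary, and the morphisms
`f i : N i ⟶ N' i` satisfy `PowerZero η (f i) (k i + 1)` for numbers `k i` with the sum `r`.

The theorem. Let `M` be an object.

1. There is an idempotent `e` of `M` with `Λ^(r + 1) (M, e) = 0` and `Sym^(s + 1) (M, 1 - e) = 0` if and
   only if the identity of `M` is a sum `x + y`, where `x` is a sum of morphisms of even ranks that
   add up to `r` and `y` is a sum of morphisms of odd ranks that add up to `s`. No relations between
   the terms are required: they need not be idempotent, orthogonal or commuting. In particular `M`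
   is Kimura-finite if and only if its identity is such a sum for some `r` and `s`.
2. An endomorphism `x` has even (odd) rank at most `r` if and only if it is a finite sum of
   compositions as above with even (odd) ranks that add up to `r`.
3. Each endomorphism `f` of `M` with a vanishing exterior (symmetric) power has a Fitting
   decomposition: there is an idempotent `e = f u = u f`, whose exterior (symmetric) power of
   the same order is zero, and `(1 - e) f ^ a = 0` for some `a`.

In particular it suffices to decompose the identity of `M` modulo morphisms `ν` with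
`ν ⊗ ⋯ ⊗ ν = 0`, and it suffices that some automorphism of `M` is a sum of morphisms with vanishing
exterior or symmetric powers.

Proof. If `Λ^(a + 1) f = 0` and `Λ^(b + 1) g = 0`, expand `(f + g) ⊗ ⋯ ⊗ (f + g)` with `a + b + 1`
factors into words; after antisymmetrization the letters can be sorted, and each word has `a + 1`
letters `f` or `b + 1` letters `g`. The contraction of all factors but one of the
antisymmetrization of `f ⊗ ⋯ ⊗ f` (starting library, Y112) is a polynomial in `f` with leading
coefficient `± n!`; so `f` is algebraic over `ℚ`. If `f + g = 1` then the idempotent `e` of the algebra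
`ℚ[f]` which belongs to the nonzero eigenvalues of `f` is a multiple of `f`, and `1 - e` is a multiple
of `g = 1 - f`, since `f` is nilpotent on the kernel of `e`.
-/

set_option autoImplicit false

open CategoryTheory Limits MonoidalCategory

universe v u

namespace Pool.Agent.Results.MP_6e5bed_ag.SumsOfSmallMorphisms

open Pool.Agent.Y112.KD Pool.Agent.R905 Pool.Agent.K3h42.SM

/-- **Kimura-finiteness and decompositions of the identity into morphisms with vanishing exterior or
symmetric powers.** -/
theorem result (C : Type u) [Category.{v} C] [Preadditive C] [Linear ℚ C] [MonoidalCategory C]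
    [MonoidalPreadditive C] [MonoidalLinear ℚ C] [SymmetricCategory C] [RightRigidCategory C]
    (hU : UnitQ C) (M : C) :
    (∀ r s : ℕ,
      (∃ e : M ⟶ M, e ≫ e = e ∧ PowerZero (-1) e (r + 1) ∧ PowerZero 1 (𝟙 M - e) (s + 1)) ↔
        ∃ x y : M ⟶ M, x + y = 𝟙 M ∧ IsSumOf (-1) x r ∧ IsSumOf 1 y s) ∧
    (IsKimuraFinite M ↔
      ∃ r s : ℕ, ∃ x y : M ⟶ M, x + y = 𝟙 M ∧ IsSumOf (-1) x r ∧ IsSumOf 1 y s) ∧
    (∀ η : ℚ, η = 1 ∨ η = -1 → ∀ (x : M ⟶ M) (r : ℕ), PowerZero η x (r + 1) ↔ IsSumOf η x r) ∧
    ∀ η : ℚ, η = 1 ∨ η = -1 → ∀ (f : M ⟶ M) (n : ℕ), PowerZero η f n →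
      ∃ e u : M ⟶ M, e ≫ e = e ∧ e = f ≫ u ∧ f ≫ u = u ≫ f ∧ PowerZero η e n ∧
        ∃ a : ℕ, (1 - End.of e) * End.of f ^ a = 0 := by
  have hη : ∀ η : ℚ, η = 1 ∨ η = -1 → η * η = 1 := by
    rintro η (rfl | rfl) <;> norm_num
  exact ⟨fun r s => idem_iff hU M r s, kimura_iff hU M, fun η h x r => ideal (hη η h) x r,
    fun η h f n hf => fitting hU (hη η h) f n hf⟩

end Pool.Agent.Results.MP_6e5bed_ag.SumsOfSmallMorphisms
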